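import Pool.Agent.Helper99.LZ.Goals

/-!
# Forms with at most one positive direction (packet MT-OP)
-/

set_option autoImplicit false

namespace Pool.Agent.Helper3.LZ

open Pool.Agent.Helper99.LZ

section gen

variable {V : Type} [AddCommGroup V] [Module ℝ V]

/-- a symmetric form which is nonpositive on the kernel of a functional -/
theorem hyp {B : V →ₗ[ℝ] V →ₗ[ℝ] ℝ} (hS : Sym B) (l : V →ₗ[ℝ] ℝ)
    (h : ∀ u, l u = 0 → B u u ≤ 0) : OnePos B := by
  intro u v hu
  have hlu : l u ≠ 0 := fun h0 => absurd (h u h0) (not_le.mpr hu)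
  have hw := h (l u • v - l v • u) (by simp; ring)
  have hvu : B v u = B u v := hS v u
  simp only [map_sub, map_smul, LinearMap.sub_apply, LinearMap.smul_apply, smul_eq_mul, hvu] at hw
  have hl2 : 0 < l u ^ 2 := by positivity
  have h1 : B u u * (l u * (l u * B v v) - l u * (l v * B u v) -
      (l v * (l u * B u v) - l v * (l v * B u u))) ≤ 0 :=
    mul_nonpos_of_nonneg_of_nonpos hu.le (by nlinarith only [hw])
  have h2 : l u ^ 2 * (B u u * B v v - (B u v) ^ 2) ≤ 0 := by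
    nlinarith only [h1, sq_nonneg (l v * B u u - l u * B u v)]
  by_contra hc
  push Not at hc
  have h3 : 0 < l u ^ 2 * (B u u * B v v - (B u v) ^ 2) := mul_pos hl2 (by linarith only [hc])
  linarith only [h2, h3]

theorem op1 {B : V →ₗ[ℝ] V →ₗ[ℝ] ℝ} {x : V} (hS : Sym B) (hx : 0 < B x x)
    (h : ∀ v, B x x * B v v ≤ (B x v) ^ 2) : OnePos B := by
  apply hyp hS (B x)
  intro u hu
  have h1 := h u
  rw [hu] at h1
  by_contra hc
  push Not at hc
  have h2 := mul_pos hx hc
  simp at h1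
  linarith only [h1, h2]

theorem op2 {B : V →ₗ[ℝ] V →ₗ[ℝ] ℝ} {x y z : V} (hS : Sym B) (hB : OnePos B) (hx : B x x = 0)
    (hz : B x z ≠ 0) (hy : B x y = 0) : B y y ≤ 0 := by
  by_contra hc
  push Not at hc
  have hzx : B z x = B x z := hS z x
  have hyx : B y x = 0 := by rw [hS y x]; exact hy
  set t : ℝ := ((B y z) ^ 2 / B y y - B z z + 1) / (2 * B x z) with ht
  have h1 := hB y (t • x + z) hc
  simp only [map_add, map_smul, LinearMap.add_apply, LinearMap.smul_apply, smul_eq_mul, hzx, hyx,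
    hx] at h1
  have h2 : 2 * t * B x z = (B y z) ^ 2 / B y y - B z z + 1 := by
    rw [ht]; field_simp
  have h3 : B y y * ((B y z) ^ 2 / B y y) = (B y z) ^ 2 := by field_simp
  have h4 : B y y * (2 * t * B x z + B z z) = (B y z) ^ 2 + B y y := by
    rw [h2]
    linear_combination h3
  nlinarith only [h1, h4, hc]

theorem op3 {B : V →ₗ[ℝ] V →ₗ[ℝ] ℝ} {x s : V} (hS : Sym B) (hB : OnePos B) (hx : 0 < B x x)
    (hxs : B x s = 0) (hs : B s s = 0) (z : V) : B s z = 0 := by
  have hsx : B s x = 0 := by rw [hS s x]; exact hxs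
  set r : ℝ := B x z / B x x with hr
  have hr' : r * B x x = B x z := by rw [hr]; field_simp
  set z' : V := z - r • x with hz'
  have hxz' : B x z' = 0 := by
    simp only [hz', map_sub, map_smul, smul_eq_mul]
    linarith only [hr']
  have hsz' : B s z' = B s z := by
    simp only [hz', map_sub, map_smul, smul_eq_mul, hsx]; ring
  have key : ∀ t : ℝ, 2 * t * B s z + t ^ 2 * B z' z' ≤ 0 := by
    intro t
    have h1 := hB x (s + t • z') hx
    have hz's : B z' s = B s z := by rw [hS z' s]; exact hsz'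
    simp only [map_add, map_smul, LinearMap.add_apply, LinearMap.smul_apply, smul_eq_mul, hxs, hs,
      hxz', hz's, hsz'] at h1
    by_contra hc
    push Not at hc
    have h2 := mul_pos hx hc
    nlinarith only [h1, h2]
  by_contra hc
  have hd : (0 : ℝ) < 1 + |B z' z'| := by positivity
  have h1 := key (B s z / (1 + |B z' z'|))
  have h2 : (0 : ℝ) < (B s z) ^ 2 := by positivity
  have h3 : 2 * (B s z / (1 + |B z' z'|)) * B s z + (B s z / (1 + |B z' z'|)) ^ 2 * B z' z'
      = (B s z) ^ 2 * (2 * (1 + |B z' z'|) + B z' z') / (1 + |B z' z'|) ^ 2 := by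
    field_simp
  rw [h3] at h1
  have h4 : 0 < 2 * (1 + |B z' z'|) + B z' z' := by
    have := neg_abs_le (B z' z')
    have := abs_nonneg (B z' z')
    linarith
  have h5 : 0 < (B s z) ^ 2 * (2 * (1 + |B z' z'|) + B z' z') / (1 + |B z' z'|) ^ 2 := by
    positivity
  linarith only [h1, h5]

theorem symAdd {B₀ B₁ : V →ₗ[ℝ] V →ₗ[ℝ] ℝ} (h0 : Sym B₀) (h1 : Sym B₁) (α β : ℝ) :
    Sym (α • B₀ + β • B₁) := by
  intro u v
  simp only [LinearMap.add_apply, LinearMap.smul_apply, smul_eq_mul]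
  rw [h0 u v, h1 u v]

theorem fam0 {B₀ B₁ : V →ₗ[ℝ] V →ₗ[ℝ] ℝ} {y₀ y₁ z : V} {α β : ℝ} (h0 : Sym B₀) (h1 : Sym B₁)
    (o0 : OnePos B₀) (o1 : OnePos B₁) (he : ∀ v, B₀ y₀ v = B₁ y₁ v) (hz : B₀ y₀ z ≠ 0)
    (n0 : 0 ≤ B₀ y₀ y₀) (n1 : 0 ≤ B₁ y₁ y₁) (ha : 0 ≤ α) (hb : 0 ≤ β) :
    OnePos (α • B₀ + β • B₁) ∧ ∀ u, B₀ y₀ u = 0 → B₀ u u ≤ 0 ∧ B₁ u u ≤ 0 := by
  have key : ∀ {B : V →ₗ[ℝ] V →ₗ[ℝ] ℝ} {y : V}, Sym B → OnePos B → B y z ≠ 0 → 0 ≤ B y y →
      ∀ u, B y u = 0 → B u u ≤ 0 := by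
    intro B y hS hB hz' hn u hu
    rcases hn.lt_or_eq with hp | hp
    · have h2 := hB y u hp
      rw [hu] at h2
      by_contra hc
      push Not at hc
      have h3 := mul_pos hp hc
      simp at h2
      linarith only [h2, h3]
    · exact op2 hS hB hp.symm hz' hu
  have hneg : ∀ u, B₀ y₀ u = 0 → B₀ u u ≤ 0 ∧ B₁ u u ≤ 0 := by
    intro u hu
    refine ⟨key h0 o0 hz n0 u hu, key h1 o1 ?_ n1 u ?_⟩
    · rw [← he]; exact hz
    · rw [← he]; exact hu
  refine ⟨hyp (symAdd h0 h1 α β) (B₀ y₀) ?_, hneg⟩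
  intro u hu
  obtain ⟨a1, a2⟩ := hneg u hu
  simp only [LinearMap.add_apply, LinearMap.smul_apply, smul_eq_mul]
  have b1 := mul_nonpos_of_nonneg_of_nonpos ha a1
  have b2 := mul_nonpos_of_nonneg_of_nonpos hb a2
  linarith only [b1, b2]

theorem onePosSmul {B : V →ₗ[ℝ] V →ₗ[ℝ] ℝ} (hB : OnePos B) {c : ℝ} (hc : 0 < c) :
    OnePos (c • B) := by
  intro u v hu
  simp only [LinearMap.smul_apply, smul_eq_mul] at hu ⊢
  have hu' : 0 < B u u := by
    by_contra h
    push Not at h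
    have := mul_nonpos_of_nonneg_of_nonpos hc.le h
    linarith
  have h := hB u v hu'
  have h2 : c ^ 2 * (B u u * B v v) ≤ c ^ 2 * (B u v) ^ 2 :=
    mul_le_mul_of_nonneg_left h (by positivity)
  nlinarith only [h2]

theorem fam {B₀ B₁ : V →ₗ[ℝ] V →ₗ[ℝ] ℝ} {X Y : V} {α β : ℝ} (h0 : Sym B₀) (h1 : Sym B₁)
    (o0 : OnePos B₀) (o1 : OnePos B₁) (he : ∀ v, B₀ Y v = B₁ X v)
    (n1 : 0 ≤ B₀ X X) (n2 : 0 ≤ B₀ X Y) (n3 : 0 ≤ B₀ Y Y) (n4 : 0 ≤ B₁ Y Y)
    (c1 : B₀ X Y = 0 → B₀ Y Y = 0 → B₀ X X = 0 ∨ B₁ Y Y = 0)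
    (c2 : B₀ X X = 0 → B₀ X Y = 0 → B₀ Y Y = 0 → B₀ = 0)
    (c3 : B₁ X X = 0 → B₁ X Y = 0 → B₁ Y Y = 0 → B₁ = 0) (ha : 0 < α) (hb : 0 < β) :
    OnePos (α • B₀ + β • B₁) ∧
      ∀ u, (∀ z, (α • B₀ + β • B₁) u z = 0) → (∀ z, B₀ u z = 0) ∧ (∀ z, B₁ u z = 0) := by
  have e1 : B₁ X X = B₀ X Y := by rw [← he X, h0 Y X]
  have e2 : B₁ X Y = B₀ Y Y := by rw [← he Y]
  by_cases hA : B₀ X Y = 0 ∧ B₀ Y Y = 0
  · obtain ⟨hA1, hA2⟩ := hA
    rcases c1 hA1 hA2 with h | h
    · have hB0 : B₀ = 0 := c2 h hA1 hA2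
      subst hB0
      have hs : α • (0 : V →ₗ[ℝ] V →ₗ[ℝ] ℝ) + β • B₁ = β • B₁ := by simp
      rw [hs]
      refine ⟨onePosSmul o1 hb, ?_⟩
      intro u hu
      refine ⟨fun z => by simp, fun z => ?_⟩
      have := hu z
      simp only [LinearMap.smul_apply, smul_eq_mul] at this
      rcases mul_eq_zero.mp this with h' | h'
      · exact absurd h' hb.ne'
      · exact h'
    · have hB1 : B₁ = 0 := c3 (e1.trans hA1) (e2.trans hA2) h
      subst hB1
      have hs : α • B₀ + β • (0 : V →ₗ[ℝ] V →ₗ[ℝ] ℝ) = α • B₀ := by simp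
      rw [hs]
      refine ⟨onePosSmul o0 ha, ?_⟩
      intro u hu
      refine ⟨fun z => ?_, fun z => by simp⟩
      have := hu z
      simp only [LinearMap.smul_apply, smul_eq_mul] at this
      rcases mul_eq_zero.mp this with h' | h'
      · exact absurd h' ha.ne'
      · exact h'
  · have hz : ∃ z, B₀ Y z ≠ 0 := by
      by_contra hc
      push Not at hc
      exact hA ⟨by rw [h0 X Y]; exact hc X, hc Y⟩
    obtain ⟨z₀, hz₀⟩ := hz
    obtain ⟨f1, f2⟩ := fam0 (y₁ := X) h0 h1 o0 o1 he hz₀ n3 (by rw [e1]; exact n2) ha.le hb.le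
    refine ⟨f1, ?_⟩
    intro u hu
    have hSym := symAdd h0 h1 α β
    have hlu : B₀ Y u = 0 := by
      by_contra hl
      have hall : ∀ v, (α • B₀ + β • B₁) v v ≤ 0 := by
        intro v
        set r : ℝ := B₀ Y v / B₀ Y u with hr
        have hr' : r * B₀ Y u = B₀ Y v := by rw [hr]; field_simp
        have hk : B₀ Y (v - r • u) = 0 := by
          simp only [map_sub, map_smul, smul_eq_mul]; linarith only [hr']
        obtain ⟨a1, a2⟩ := f2 _ hk
        have b1 := mul_nonpos_of_nonneg_of_nonpos ha.le a1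
        have b2 := mul_nonpos_of_nonneg_of_nonpos hb.le a2
        have b3 : (α • B₀ + β • B₁) (v - r • u) (v - r • u) ≤ 0 := by
          simp only [LinearMap.add_apply, LinearMap.smul_apply, smul_eq_mul]
          linarith only [b1, b2]
        have b4 : (α • B₀ + β • B₁) (v - r • u) (v - r • u) = (α • B₀ + β • B₁) v v := by
          have q1 := hu v
          have q2 := hu u
          have q3 := hSym v u
          set B' := α • B₀ + β • B₁
          simp only [map_sub, map_smul, LinearMap.sub_apply, LinearMap.smul_apply, smul_eq_mul,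
            q1, q2, q3]
          ring
        rw [b4] at b3
        exact b3
      have h5 := hall (X + Y)
      have hYX : B₀ Y X = B₀ X Y := h0 Y X
      have hYX1 : B₁ Y X = B₁ X Y := h1 Y X
      simp only [map_add, LinearMap.add_apply, LinearMap.smul_apply, smul_eq_mul, hYX, hYX1, e1,
        e2] at h5
      have hpos : 0 < B₀ X Y + B₀ Y Y := by
        rcases n2.lt_or_eq with h6 | h6
        · linarith only [h6, n3]
        · rcases n3.lt_or_eq with h7 | h7
          · linarith only [h7, n2]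
          · exact absurd ⟨h6.symm, h7.symm⟩ hA
      have p1 := mul_pos ha hpos
      have p2 := mul_nonneg ha.le n1
      have p3 := mul_nonneg ha.le n2
      have p4 := mul_nonneg hb.le n2
      have p5 := mul_nonneg hb.le n3
      have p6 := mul_nonneg hb.le n4
      nlinarith only [h5, p1, p2, p3, p4, p5, p6]
    obtain ⟨a1, a2⟩ := f2 u hlu
    have hsum := hu u
    simp only [LinearMap.add_apply, LinearMap.smul_apply, smul_eq_mul] at hsum
    have b1 := mul_nonpos_of_nonneg_of_nonpos ha.le a1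
    have b2 := mul_nonpos_of_nonneg_of_nonpos hb.le a2
    have z0 : B₀ u u = 0 := by
      have : α * B₀ u u = 0 := by linarith only [hsum, b1, b2]
      rcases mul_eq_zero.mp this with h' | h'
      · exact absurd h' ha.ne'
      · exact h'
    have z1 : B₁ u u = 0 := by
      have : β * B₁ u u = 0 := by linarith only [hsum, b1, b2]
      rcases mul_eq_zero.mp this with h' | h'
      · exact absurd h' hb.ne'
      · exact h'
    rcases n3.lt_or_eq with h6 | h6
    · have r0 : ∀ z, B₀ u z = 0 := op3 h0 o0 h6 hlu z0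
      refine ⟨r0, fun z => ?_⟩
      have := hu z
      simp only [LinearMap.add_apply, LinearMap.smul_apply, smul_eq_mul, r0 z] at this
      have h' : β * B₁ u z = 0 := by linarith only [this]
      rcases mul_eq_zero.mp h' with h' | h'
      · exact absurd h' hb.ne'
      · exact h'
    · have hp : 0 < B₁ X X := by
        rw [e1]
        rcases n2.lt_or_eq with h7 | h7
        · exact h7
        · exact absurd ⟨h7.symm, h6.symm⟩ hA
      have r1 : ∀ z, B₁ u z = 0 := op3 h1 o1 hp (by rw [← he u]; exact hlu) z1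
      refine ⟨fun z => ?_, r1⟩
      have := hu z
      simp only [LinearMap.add_apply, LinearMap.smul_apply, smul_eq_mul, r1 z] at this
      have h' : α * B₀ u z = 0 := by linarith only [this]
      rcases mul_eq_zero.mp h' with h' | h'
      · exact absurd h' ha.ne'
      · exact h'

end gen

/-- packet MT-OP -/
theorem op : StmtOP := by
  refine ⟨?_, ?_, ?_, ?_, ?_⟩
  · intro V _ _ B x hS hx h
    exact op1 hS hx h
  · intro V _ _ B x y z hS hB hx hz hy
    exact op2 hS hB hx hz hy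
  · intro V _ _ B x s hS hB hx hxs hs z
    exact op3 hS hB hx hxs hs z
  · intro V _ _ B₀ B₁ y₀ y₁ z α β h0 h1 o0 o1 he hz n0 n1 ha hb
    exact fam0 h0 h1 o0 o1 he hz n0 n1 ha hb
  · intro V _ _ B₀ B₁ X Y α β h0 h1 o0 o1 he n1 n2 n3 n4 c1 c2 c3 ha hb
    exact fam h0 h1 o0 o1 he n1 n2 n3 n4 c1 c2 c3 ha hb

end Pool.Agent.Helper3.LZ
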